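import Pool.Agent.Lib.RACG.Main

/-!
RAC drawings with at most `k ≥ 1` bends on each edge: the placements of the vertices which extend to
such drawings form an open set, in which the placements with drawings on the integer grid (up to
scaling) are dense. In particular RAC_k drawability, `k ≥ 1`, is the same problem as RAC_k drawability
on the integer grid.

Definitions (file `Pool/Agent/Lib/RACG/Defs.lean`, `Grid.lean`, `Main.lean`):
* `Dr V`: the vertex `v` is drawn at the point `pos v`, the edge `e` as the polygonal curve with the
  successive corners `pt e 0, ..., pt e (m e + 1)`;
* `IsRAC k G D`: the vertices are at distinct points; each edge `e` of `G` has `m e ≤ k` and runs from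
  one of its vertices to the other one; its segments have positive length, consecutive segments meet
  only in their common corner, all others are disjoint (the curve is simple); no vertex other than
  its two ends lies on the curve; if a point which is not a vertex lies on two different edges, then
  any segment of the first one and any segment of the second one containing it are perpendicular (so
  two edges meet in finitely many points, and cross at right angles only);
* `OnGrid G D`: all vertices and all corners of edges are integer points;
* `Plc k G`: the placements of the vertices which extend to drawings `D` with `IsRAC k G D`;
* `GridPlc k G`: the placements `p` such that for some `N ≥ 1` the placement `N p` extends to a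
  drawing `D` with `IsRAC k G D` and `OnGrid G D`.
-/

open Pool.Agent.Lib.RACG

namespace Pool.Agent.Results.MP_bf8d95_lc.GridDrawings

/-- For `k ≥ 1` the placements of the vertices which extend to RAC drawings of `G` with at most `k`
bends on each edge form an open set; those with drawings on the integer grid (after multiplication by
a positive integer) belong to it and are dense in it; in particular `G` has a RAC drawing with at most
`k` bends on each edge if and only if it has one on the integer grid. -/
theorem result (k : ℕ) (hk : 1 ≤ k) (V : Type) [Finite V] (G : SimpleGraph V) :
    IsOpen (Plc k G) ∧ GridPlc k G ⊆ Plc k G ∧ Plc k G ⊆ closure (GridPlc k G) ∧
      ((∃ D : Dr V, IsRAC k G D) ↔ ∃ D : Dr V, IsRAC k G D ∧ OnGrid G D) :=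
  main hk G

end Pool.Agent.Results.MP_bf8d95_lc.GridDrawings
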