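import Pool.Agent.Lib.RACS.MainS

/-!
Every finite graph in which each set `X` of at least two vertices spans at most `4 |X| - 6` edges has
a RAC drawing with at most two bends on each edge.

Definitions (file `Pool/Agent/Lib/RACG/Defs.lean`), the same as in `GridDrawings`:
* `Dr V`: the vertex `v` is drawn at the point `pos v`, the edge `e` as the polygonal curve with the
  successive corners `pt e 0, ..., pt e (m e + 1)`;
* `IsRAC k G D`: the vertices are at distinct points; each edge `e` of `G` has `m e ≤ k` and runs from
  one of its vertices to the other one; its segments have positive length, consecutive segments meet
  only in their common corner, all others are disjoint (the curve is simple); no vertex other than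
  its two ends lies on the curve; if a point which is not a vertex lies on two different edges, then
  any segment of the first one and any segment of the second one containing it are perpendicular (so
  two edges meet in finitely many points, and cross at right angles only).
-/

open Pool.Agent.Lib.RACG

namespace Pool.Agent.Results.MP_bf8d95_lc.SparseGraphs

/-- If every set `X` of at least two vertices of the finite graph `G` spans at most `4 |X| - 6` edges,
then `G` has a RAC drawing with at most two bends on each edge. -/
theorem result (V : Type) [Finite V] (G : SimpleGraph V)
    (h : ∀ X : Finset V, 2 ≤ X.card →
      {e | e ∈ G.edgeSet ∧ ∀ v ∈ e, v ∈ X}.ncard + 6 ≤ 4 * X.card) :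
    ∃ D : Dr V, IsRAC 2 G D :=
  Pool.Agent.Lib.RACS.mainS G h

end Pool.Agent.Results.MP_bf8d95_lc.SparseGraphs
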